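import Mathlib

set_option autoImplicit false

namespace Pool.Agent.H.IND

open Finset

variable {V : Type} [DecidableEq V]

def Cat (H : Finset (Finset V)) (S : Finset V) : Prop :=
  ∀ C1 ∈ H, ∀ C2 ∈ H, 2 ≤ (C1 ∩ S).card → 2 ≤ (C2 ∩ S).card → ¬ Disjoint (C1 ∩ S) (C2 ∩ S)

def W (H : Finset (Finset V)) (S : Finset V) : Prop :=
  ∃ P Q : Finset V, Disjoint P Q ∧ P ∪ Q = S ∧ P.card = 2 ∧ Q.card = 6 ∧ Cat H Q ∧
    (∃ C ∈ H, C ∩ S = P) ∧ (∃ C ∈ H, C ∩ S = Q)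

open Classical in
noncomputable def NN (H : Finset (Finset V)) (A : Finset V) : ℕ :=
  (A.powerset.filter (W H)).card

open Classical in
noncomputable def KK (H : Finset (Finset V)) (A : Finset V) : ℕ :=
  ((A.powersetCard 6).filter (Cat H)).card

theorem key (H : Finset (Finset V)) (A : Finset V) :
    NN H A * 15 + KK H A * A.card.choose 2 ≤ A.card.choose 6 * A.card.choose 2 := by
  classical
  have h1 := card_filter_add_card_filter_not (s := A.powersetCard 6) (Cat H)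
  rw [card_powersetCard] at h1
  have h2 : (A.powerset.filter (W H)).card * 15 ≤
      ((A.powersetCard 6).filter (fun T => ¬ Cat H T)).card * A.card.choose 2 := by
    refine card_mul_le_card_mul (fun S T => T ⊆ S) ?_ ?_
    · intro S hS
      obtain ⟨hSA, P, Q, hd, rfl, hP, hQ, -, ⟨C1, c1, e1⟩, ⟨C2, c2, e2⟩⟩ := mem_filter.1 hS
      have : (Q.powersetCard 4).card = 15 := by rw [card_powersetCard, hQ]; rfl
      rw [← this]
      refine card_le_card_of_injOn (fun T => P ∪ T) ?_ ?_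
      · intro T hT
        obtain ⟨hTQ, hT4⟩ := mem_powersetCard.1 (mem_coe.1 hT)
        have hs : P ∪ T ⊆ P ∪ Q := union_subset_union (Subset.refl _) hTQ
        simp only [coe_filter, bipartiteAbove, mem_filter, mem_powersetCard, Set.mem_setOf_eq]
        refine ⟨⟨⟨hs.trans (mem_powerset.1 hSA), ?_⟩, fun h => ?_⟩, hs⟩
        · rw [card_union_of_disjoint (hd.mono_right hTQ)]; omega
        · have a1 : C1 ∩ (P ∪ T) = P := by
            rw [← inter_eq_right.2 hs, ← inter_assoc, e1, inter_eq_left]; exact subset_union_left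
          have a2 : C2 ∩ (P ∪ T) = T := by
            rw [← inter_eq_right.2 hs, ← inter_assoc, e2, inter_union_distrib_left,
              disjoint_iff_inter_eq_empty.1 hd.symm, empty_union, inter_eq_right]; exact hTQ
          exact h C1 c1 C2 c2 (by rw [a1]; omega) (by rw [a2]; omega)
            (by rw [a1, a2]; exact hd.mono_right hTQ)
      · intro T hT T' hT' e
        have a := (mem_powersetCard.1 (mem_coe.1 hT)).1
        have b := (mem_powersetCard.1 (mem_coe.1 hT')).1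
        have := congrArg (· \ P) e
        simp only at this
        rwa [union_sdiff_cancel_left (hd.mono_right a),
          union_sdiff_cancel_left (hd.mono_right b)] at this
    · intro T hT
      rw [← card_powersetCard]
      have hT6 := (mem_powersetCard.1 (mem_filter.1 hT).1).2
      refine card_le_card_of_injOn (fun S => S \ T) ?_ ?_
      · intro S hS
        simp only [coe_filter, bipartiteBelow, mem_filter, mem_powerset, Set.mem_setOf_eq] at hS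
        obtain ⟨⟨hSA, P, Q, hd, rfl, hP, hQ, -⟩, hs⟩ := hS
        refine mem_coe.2 (mem_powersetCard.2 ⟨sdiff_subset.trans hSA, ?_⟩)
        rw [card_sdiff_of_subset hs, card_union_of_disjoint hd]; omega
      · intro S hS S' hS' e
        simp only [coe_filter, bipartiteBelow, mem_filter, mem_powerset, Set.mem_setOf_eq] at hS hS'
        rw [← sdiff_union_of_subset hS.2, ← sdiff_union_of_subset hS'.2]
        exact congrArg (· ∪ T) e
  unfold NN KK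
  rw [← h1, add_mul]
  convert add_le_add_left h2 (((A.powersetCard 6).filter (Cat H)).card * A.card.choose 2) using 1
  ring

theorem two_part {P Q X Y : Finset V} (h1 : Disjoint P Q) (h2 : Disjoint X Y)
    (e : P ∪ Q = X ∪ Y) (hP : P.Nonempty) (hQ : Q.Nonempty) (hX : X.Nonempty) (hY : Y.Nonempty)
    (a1 : P ⊆ X ∨ X ⊆ P ∨ Disjoint P X) (a2 : P ⊆ Y ∨ Y ⊆ P ∨ Disjoint P Y)
    (a3 : Q ⊆ X ∨ X ⊆ Q ∨ Disjoint Q X) (a4 : Q ⊆ Y ∨ Y ⊆ Q ∨ Disjoint Q Y) :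
    (P ⊆ X ∧ Q ⊆ Y) ∨ (P ⊆ Y ∧ Q ⊆ X) := by
  obtain ⟨p, hp⟩ := hP
  obtain ⟨q, hq⟩ := hQ
  obtain ⟨x, hx⟩ := hX
  obtain ⟨y, hy⟩ := hY
  simp only [Finset.ext_iff, mem_union, subset_iff, disjoint_left] at *
  grind

theorem lam_tr {H : Finset (Finset V)} (hl : ∀ A ∈ H, ∀ B ∈ H, A ⊆ B ∨ B ⊆ A ∨ Disjoint A B)
    {A B : Finset V} (hA : A ∈ H) (hB : B ∈ H) (S : Finset V) :
    A ∩ S ⊆ B ∩ S ∨ B ∩ S ⊆ A ∩ S ∨ Disjoint (A ∩ S) (B ∩ S) := by
  rcases hl A hA B hB with h | h | h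
  · exact Or.inl (inter_subset_inter_right h)
  · exact Or.inr (Or.inl (inter_subset_inter_right h))
  · exact Or.inr (Or.inr (h.mono inter_subset_left inter_subset_left))

theorem recur {H : Finset (Finset V)} (hl : ∀ A ∈ H, ∀ B ∈ H, A ⊆ B ∨ B ⊆ A ∨ Disjoint A B)
    {B C : Finset V} (hB : B ∈ H) (hC : C ∈ H) (hd : Disjoint B C) :
    NN H (B ∪ C) ≤ NN H B + NN H C + B.card.choose 2 * KK H C + C.card.choose 2 * KK H B := by
  classical
  unfold NN KK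
  rw [← card_powersetCard, ← card_powersetCard, ← card_product, ← card_product]
  refine le_trans (card_le_card (t := B.powerset.filter (W H) ∪ C.powerset.filter (W H) ∪
    (B.powersetCard 2 ×ˢ (C.powersetCard 6).filter (Cat H)).image (fun p => p.1 ∪ p.2) ∪
    (C.powersetCard 2 ×ˢ (B.powersetCard 6).filter (Cat H)).image (fun p => p.1 ∪ p.2)) ?_) ?_
  · intro S hS
    obtain ⟨hSA, hW⟩ := mem_filter.1 hS
    rw [mem_powerset] at hSA
    simp only [mem_union, mem_filter, mem_powerset, mem_image, mem_product, mem_powersetCard]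
    by_cases h1 : S ⊆ B
    · exact Or.inl (Or.inl (Or.inl ⟨h1, hW⟩))
    by_cases h2 : S ⊆ C
    · exact Or.inl (Or.inl (Or.inr ⟨h2, hW⟩))
    obtain ⟨P, Q, hPQ, e, hP, hQ, hc, ⟨C1, c1, e1⟩, ⟨C2, c2, e2⟩⟩ := hW
    have e' : P ∪ Q = B ∩ S ∪ C ∩ S := by
      rw [← union_inter_distrib_right, e, inter_eq_right.2 hSA]
    have n1 : (B ∩ S).Nonempty := by
      obtain ⟨x, a, b⟩ := not_subset.1 h2
      exact ⟨x, mem_inter.2 ⟨(mem_union.1 (hSA a)).resolve_right b, a⟩⟩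
    have n2 : (C ∩ S).Nonempty := by
      obtain ⟨x, a, b⟩ := not_subset.1 h1
      exact ⟨x, mem_inter.2 ⟨(mem_union.1 (hSA a)).resolve_left b, a⟩⟩
    rcases two_part hPQ (hd.mono inter_subset_left inter_subset_left) e'
      (card_pos.1 (by omega)) (card_pos.1 (by omega)) n1 n2
      (e1 ▸ lam_tr hl c1 hB S) (e1 ▸ lam_tr hl c1 hC S) (e2 ▸ lam_tr hl c2 hB S)
      (e2 ▸ lam_tr hl c2 hC S) with ⟨a, b⟩ | ⟨a, b⟩
    · exact Or.inl (Or.inr ⟨(P, Q), ⟨⟨a.trans inter_subset_left, hP⟩,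
        ⟨b.trans inter_subset_left, hQ⟩, hc⟩, e⟩)
    · exact Or.inr ⟨(P, Q), ⟨⟨a.trans inter_subset_left, hP⟩,
        ⟨b.trans inter_subset_left, hQ⟩, hc⟩, e⟩
  · refine (card_union_le _ _).trans (add_le_add ((card_union_le _ _).trans
      (add_le_add (card_union_le _ _) card_image_le)) card_image_le)

noncomputable def dd : ℝ := 7 * (5 * √5 - 11) / 4

theorem s5 : (√5 : ℝ) ^ 2 = 5 := Real.sq_sqrt (by norm_num)

theorem s5b : (2.236 : ℝ) ≤ √5 ∧ √5 ≤ 2.2361 :=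
  ⟨Real.le_sqrt_of_sq_le (by norm_num), Real.sqrt_le_iff.2 ⟨by norm_num, by norm_num⟩⟩

theorem ineqA (l r : ℝ) (hl : 0 ≤ l) (hr : 0 ≤ r) :
    28 * (l ^ 2 * r ^ 6 + l ^ 6 * r ^ 2) ≤ dd * (l + r) ^ 8 := by
  obtain ⟨b1, b2⟩ := s5b
  have h5 := s5
  set w := √(5 : ℝ)
  have e : dd * (l + r) ^ 8 - 28 * (l ^ 2 * r ^ 6 + l ^ 6 * r ^ 2) =
      28 * ((l * r - (3 - w) / 4 * (l + r) ^ 2) ^ 2 *
        ((w - 1) / 4 * (l + r) ^ 4 + (l * r) * ((1 + w) * (l + r) ^ 2 - 2 * (l * r)))) := by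
    unfold dd
    linear_combination (7 * (l + r) ^ 4 * (-(w - 7) * (l + r) ^ 4 / 16 -
      (w - 3) * (l * r) * (l + r) ^ 2 / 4 - (3 / 2) * (l * r) ^ 2)) * h5
  have : 0 ≤ (1 + w) * (l + r) ^ 2 - 2 * (l * r) := by
    nlinarith [sq_nonneg l, sq_nonneg r, mul_nonneg hl hr, sq_nonneg (l + r)]
  have h2 : 0 ≤ (w - 1) / 4 := by linarith
  have : 0 ≤ 28 * ((l * r - (3 - w) / 4 * (l + r) ^ 2) ^ 2 *
        ((w - 1) / 4 * (l + r) ^ 4 + (l * r) * ((1 + w) * (l + r) ^ 2 - 2 * (l * r)))) := by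
    positivity
  linarith

theorem dd_ge : (0.315 : ℝ) ≤ dd := by
  have := s5b.1
  unfold dd; linarith

theorem ineqB0 (t : ℝ) (h0 : 0 ≤ t) (h1 : 15 * t ^ 2 ≤ 1) :
    28 * (t ^ 2 + t ^ 6) ≤ dd * ((1 + t) ^ 8 - 1 + 15 * t ^ 2) := by
  have ht : t ≤ 0.26 := by nlinarith
  have a1 : 8 * t + 43 * t ^ 2 + 56 * t ^ 3 + 70 * t ^ 4 ≤ (1 + t) ^ 8 - 1 + 15 * t ^ 2 := by
    have : (1 + t) ^ 8 - 1 + 15 * t ^ 2 = 8 * t + 43 * t ^ 2 + 56 * t ^ 3 + 70 * t ^ 4 +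
      (56 * t ^ 5 + 28 * t ^ 6 + 8 * t ^ 7 + t ^ 8) := by ring
    rw [this]
    have : 0 ≤ 56 * t ^ 5 + 28 * t ^ 6 + 8 * t ^ 7 + t ^ 8 := by positivity
    linarith
  have a2 : 0 ≤ 8 * t + 43 * t ^ 2 + 56 * t ^ 3 + 70 * t ^ 4 := by positivity
  have a3 : t ^ 5 ≤ t ^ 3 / 15 := by nlinarith [pow_nonneg h0 3]
  have a4 : 0 ≤ 2.52 - 14.455 * t + 17.64 * t ^ 2 + 20 * t ^ 3 := by
    nlinarith [mul_nonneg h0 (sq_nonneg (t - 0.26)), sq_nonneg (t - 0.26)]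
  have a5 : 28 * (t + t ^ 5) ≤ 0.315 * (8 + 43 * t + 56 * t ^ 2 + 70 * t ^ 3) := by
    nlinarith [pow_nonneg h0 3]
  have a6 := mul_le_mul_of_nonneg_left a5 h0
  nlinarith [mul_le_mul dd_ge a1 a2 (le_trans (by norm_num) dd_ge)]

theorem ineqB (l r : ℝ) (hl : 0 ≤ l) (hr : 0 < r) (h : 15 * l ^ 2 ≤ r ^ 2) :
    28 * (l ^ 2 * r ^ 6 + l ^ 6 * r ^ 2) + dd * r ^ 6 * (r ^ 2 - 15 * l ^ 2) ≤ dd * (l + r) ^ 8 := by
  obtain ⟨t, rfl⟩ : ∃ t, l = t * r := ⟨l / r, by field_simp⟩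
  have h0 : 0 ≤ t := nonneg_of_mul_nonneg_left hl hr
  have h1 : 15 * t ^ 2 ≤ 1 := by
    have : 15 * t ^ 2 * r ^ 2 ≤ 1 * r ^ 2 := by linarith [mul_pow t r 2]
    exact le_of_mul_le_mul_right this (by positivity)
  have := mul_le_mul_of_nonneg_right (ineqB0 t h0 h1) (pow_nonneg hr.le 8)
  nlinarith

theorem comb (l r nb nc kb kc : ℝ) (hl : 0 < l) (hlr : l ≤ r) (h1 : 0 ≤ nb) (h2 : 0 ≤ nc)
    (h4 : nc ≤ dd * r ^ 8 / 40320) (h5 : 30 * nb + kb * l ^ 2 ≤ l ^ 8 / 720)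
    (h6 : 30 * nc + kc * r ^ 2 ≤ r ^ 8 / 720) :
    nb + nc + l ^ 2 / 2 * kc + r ^ 2 / 2 * kb ≤ dd * (l + r) ^ 8 / 40320 := by
  have hr : 0 < r := by linarith
  have l2 : 0 < l ^ 2 := by positivity
  have r2 : 0 < r ^ 2 := by positivity
  have lr : l ^ 2 ≤ r ^ 2 := pow_le_pow_left₀ hl.le hlr 2
  have a1 : nb + r ^ 2 / 2 * kb ≤ l ^ 6 * r ^ 2 / 1440 := by
    refine le_of_mul_le_mul_right ?_ l2
    nlinarith [mul_le_mul_of_nonneg_left h5 r2.le, mul_le_mul_of_nonneg_left lr h1,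
      mul_nonneg h1 r2.le]
  have a2 : (nc + l ^ 2 / 2 * kc) * r ^ 2 ≤ l ^ 2 * r ^ 6 / 1440 * r ^ 2 +
      nc * (r ^ 2 - 15 * l ^ 2) := by
    nlinarith [mul_le_mul_of_nonneg_left h6 l2.le]
  by_cases h : 15 * l ^ 2 ≤ r ^ 2
  · have a3 : nc + l ^ 2 / 2 * kc ≤ l ^ 2 * r ^ 6 / 1440 +
        dd * r ^ 6 * (r ^ 2 - 15 * l ^ 2) / 40320 := by
      refine le_of_mul_le_mul_right ?_ r2
      nlinarith [mul_le_mul_of_nonneg_right h4 (sub_nonneg.2 h)]
    have := ineqB l r hl.le hr h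
    linarith
  · have a3 : nc + l ^ 2 / 2 * kc ≤ l ^ 2 * r ^ 6 / 1440 := by
      refine le_of_mul_le_mul_right ?_ r2
      nlinarith [mul_nonneg h2 (show 0 ≤ 15 * l ^ 2 - r ^ 2 by linarith)]
    have := ineqA l r hl.le hr.le
    linarith

end Pool.Agent.H.IND
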