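import Pool.Agent.H.MP_0586ce_co.A

set_option autoImplicit false

namespace Pool.Agent.H.IND

open Finset Filter Topology

theorem choose_le (a j : ℕ) : (a.choose j : ℝ) ≤ (a : ℝ) ^ j / j.factorial :=
  Nat.choose_le_pow_div j a

theorem keyR {V : Type} [DecidableEq V] (H : Finset (Finset V)) (A : Finset V)
    (h : (NN H A : ℝ) ≤ dd * (A.card : ℝ) ^ 8 / 40320) :
    30 * (NN H A : ℝ) + (KK H A : ℝ) * (A.card : ℝ) ^ 2 ≤ (A.card : ℝ) ^ 8 / 720 := by
  classical
  have h1 : (NN H A : ℝ) * 15 + KK H A * A.card.choose 2 ≤ A.card.choose 6 * A.card.choose 2 := by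
    exact_mod_cast key H A
  have h2 : (KK H A : ℝ) ≤ A.card.choose 6 := by
    have : KK H A ≤ A.card.choose 6 := by
      unfold KK; rw [← card_powersetCard]; exact card_filter_le _ _
    exact_mod_cast this
  have h3 := choose_le A.card 2
  have h4 := choose_le A.card 6
  norm_num [Nat.factorial] at h3 h4
  nlinarith [mul_le_mul_of_nonneg_left h3 (sub_nonneg.2 h2),
    mul_le_mul_of_nonneg_right h4 (sq_nonneg (A.card : ℝ))]

theorem upper {V : Type} [DecidableEq V] {H : Finset (Finset V)}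
    (hl : ∀ A ∈ H, ∀ B ∈ H, A ⊆ B ∨ B ⊆ A ∨ Disjoint A B)
    (hb : ∀ A ∈ H, 2 ≤ A.card → ∃ B ∈ H, ∃ C ∈ H,
      B.Nonempty ∧ C.Nonempty ∧ Disjoint B C ∧ B ∪ C = A) (A : Finset V) (hA : A ∈ H) :
    (NN H A : ℝ) ≤ dd * (A.card : ℝ) ^ 8 / 40320 := by
  classical
  induction A using Finset.strongInduction with
  | H A ih =>
    by_cases h2 : 2 ≤ A.card
    · obtain ⟨B, hB, C, hC, nB, nC, hd, rfl⟩ := hb A hA h2
      have cB := card_pos.2 nB
      have cC := card_pos.2 nC
      have cu := card_union_of_disjoint hd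
      have iB := ih B ⟨subset_union_left, fun h => by have := card_le_card h; omega⟩ hB
      have iC := ih C ⟨subset_union_right, fun h => by have := card_le_card h; omega⟩ hC
      have kB := keyR H B iB
      have kC := keyR H C iC
      have r : (NN H (B ∪ C) : ℝ) ≤ NN H B + NN H C + B.card.choose 2 * KK H C +
          C.card.choose 2 * KK H B := by exact_mod_cast recur hl hB hC hd
      have h3 := choose_le B.card 2
      have h4 := choose_le C.card 2
      norm_num [Nat.factorial] at h3 h4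
      have h5 := mul_le_mul_of_nonneg_right h3 (Nat.cast_nonneg (α := ℝ) (KK H C))
      have h6 := mul_le_mul_of_nonneg_right h4 (Nat.cast_nonneg (α := ℝ) (KK H B))
      rw [cu]
      push_cast
      rcases le_total B.card C.card with h | h
      · have := comb B.card C.card (NN H B) (NN H C) (KK H B) (KK H C) (by exact_mod_cast cB)
          (by exact_mod_cast h) (Nat.cast_nonneg _) (Nat.cast_nonneg _) iC kB kC
        linarith
      · have := comb C.card B.card (NN H C) (NN H B) (KK H C) (KK H B) (by exact_mod_cast cC)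
          (by exact_mod_cast h) (Nat.cast_nonneg _) (Nat.cast_nonneg _) iB kC kB
        rw [add_comm (B.card : ℝ)]
        linarith
    · have : NN H A = 0 := by
        unfold NN
        rw [card_eq_zero, filter_eq_empty_iff]
        rintro S hS ⟨P, Q, -, rfl, hP, -⟩
        have := card_le_card (subset_union_left.trans (mem_powerset.1 hS))
        omega
      rw [this]
      have := dd_ge
      push_cast
      positivity

def Hc (n l : ℕ) : Finset (Finset (Fin n)) :=
  univ.filter (fun C => C = univ ∨ (∃ v, C = {v}) ∨ (∃ v : Fin n, v.val < l ∧ C = Iic v) ∨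
    (∃ v : Fin n, l ≤ v.val ∧ C = Ici v))

theorem mem_Hc {n l : ℕ} {C : Finset (Fin n)} : C ∈ Hc n l ↔
    C = univ ∨ (∃ v, C = {v}) ∨ (∃ v : Fin n, v.val < l ∧ C = Iic v) ∨
    (∃ v : Fin n, l ≤ v.val ∧ C = Ici v) := by simp [Hc]

def Valid {n : ℕ} (H : Finset (Finset (Fin n))) : Prop :=
  Finset.univ ∈ H ∧ (∀ i : Fin n, ({i} : Finset (Fin n)) ∈ H) ∧
    (∅ : Finset (Fin n)) ∉ H ∧
    (∀ A ∈ H, ∀ B ∈ H, A ⊆ B ∨ B ⊆ A ∨ Disjoint A B) ∧
    (∀ A ∈ H, 2 ≤ A.card → ∃ B ∈ H, ∃ C ∈ H,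
      B.Nonempty ∧ C.Nonempty ∧ Disjoint B C ∧ B ∪ C = A)

theorem valid_Hc {n l : ℕ} (h0 : 0 < l) (h1 : l < n) : Valid (Hc n l) := by
  refine ⟨mem_Hc.2 (Or.inl rfl), fun i => mem_Hc.2 (Or.inr (Or.inl ⟨i, rfl⟩)), ?_, ?_, ?_⟩
  · intro h
    rcases mem_Hc.1 h with h | ⟨v, h⟩ | ⟨v, -, h⟩ | ⟨v, -, h⟩
    · have : (⟨l, h1⟩ : Fin n) ∈ (∅ : Finset (Fin n)) := h ▸ mem_univ _
      simp at this
    · exact absurd h.symm (singleton_ne_empty v)
    · exact absurd h.symm nonempty_Iic.ne_empty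
    · exact absurd h.symm nonempty_Ici.ne_empty
  · intro A hA B hB
    rcases mem_Hc.1 hA with rfl | ⟨v, rfl⟩ | ⟨v, hv, rfl⟩ | ⟨v, hv, rfl⟩
    · exact Or.inr (Or.inl (subset_univ _))
    · by_cases h : v ∈ B
      · exact Or.inl (singleton_subset_iff.2 h)
      · exact Or.inr (Or.inr (disjoint_singleton_left.2 h))
    all_goals
      rcases mem_Hc.1 hB with rfl | ⟨u, rfl⟩ | ⟨u, hu, rfl⟩ | ⟨u, hu, rfl⟩
    · exact Or.inl (subset_univ _)
    · by_cases h : u ∈ Iic v
      · exact Or.inr (Or.inl (singleton_subset_iff.2 h))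
      · exact Or.inr (Or.inr (disjoint_singleton_right.2 h))
    · rcases le_total u v with h | h
      · exact Or.inr (Or.inl (Iic_subset_Iic.2 h))
      · exact Or.inl (Iic_subset_Iic.2 h)
    · refine Or.inr (Or.inr (disjoint_left.2 fun x a b => ?_))
      simp only [mem_Iic, mem_Ici, Fin.le_def] at a b; omega
    · exact Or.inl (subset_univ _)
    · by_cases h : u ∈ Ici v
      · exact Or.inr (Or.inl (singleton_subset_iff.2 h))
      · exact Or.inr (Or.inr (disjoint_singleton_right.2 h))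
    · refine Or.inr (Or.inr (disjoint_left.2 fun x a b => ?_))
      simp only [mem_Iic, mem_Ici, Fin.le_def] at a b; omega
    · rcases le_total u v with h | h
      · exact Or.inl (Ici_subset_Ici.2 h)
      · exact Or.inr (Or.inl (Ici_subset_Ici.2 h))
  · intro A hA h2
    rcases mem_Hc.1 hA with rfl | ⟨v, rfl⟩ | ⟨v, hv, rfl⟩ | ⟨v, hv, rfl⟩
    · refine ⟨Iic ⟨l - 1, by omega⟩, mem_Hc.2 (Or.inr (Or.inr (Or.inl ⟨_, by simp; omega, rfl⟩))),
        Ici ⟨l, h1⟩, mem_Hc.2 (Or.inr (Or.inr (Or.inr ⟨_, le_rfl, rfl⟩))), nonempty_Iic,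
        nonempty_Ici, disjoint_left.2 fun x a b => ?_, ?_⟩
      · simp only [mem_Iic, mem_Ici, Fin.le_def] at a b; omega
      · ext x; simp only [mem_union, mem_Iic, mem_Ici, Fin.le_def, mem_univ, iff_true]; omega
    · simp at h2
    · rw [Fin.card_Iic] at h2
      refine ⟨Iic ⟨v - 1, by omega⟩, mem_Hc.2 (Or.inr (Or.inr (Or.inl ⟨_, by simp; omega, rfl⟩))),
        {v}, mem_Hc.2 (Or.inr (Or.inl ⟨_, rfl⟩)), nonempty_Iic,
        singleton_nonempty _, disjoint_left.2 fun x a b => ?_, ?_⟩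
      · simp only [mem_Iic, mem_singleton, Fin.le_def, Fin.ext_iff] at a b; omega
      · ext x; simp only [mem_union, mem_Iic, mem_singleton, Fin.le_def, Fin.ext_iff]; omega
    · rw [Fin.card_Ici] at h2
      refine ⟨Ici ⟨v + 1, by omega⟩, mem_Hc.2 (Or.inr (Or.inr (Or.inr ⟨_, by simp; omega, rfl⟩))),
        {v}, mem_Hc.2 (Or.inr (Or.inl ⟨_, rfl⟩)), nonempty_Ici,
        singleton_nonempty _, disjoint_left.2 fun x a b => ?_, ?_⟩
      · simp only [mem_Ici, mem_singleton, Fin.le_def, Fin.ext_iff] at a b; omega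
      · ext x; simp only [mem_union, mem_Ici, mem_singleton, Fin.le_def, Fin.ext_iff]; omega

def Ind {n : ℕ} (H : Finset (Finset (Fin n))) (S : Finset (Fin n)) : Prop :=
  ∃ e : Fin 8 → Fin n, Function.Injective e ∧ Set.range e = (↑S : Set (Fin n)) ∧
    ∀ A : Finset (Fin 8), A ∈ Hc 8 2 ↔ (A.Nonempty ∧ ∃ C ∈ H, C ∩ S = A.image e)

theorem tr_iff {n : ℕ} {e : Fin 8 → Fin n} (he : Function.Injective e) (C : Finset (Fin n))
    (A : Finset (Fin 8)) :
    C ∩ univ.image e = A.image e ↔ A = univ.filter (fun i => e i ∈ C) := by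
  constructor
  · intro h
    ext i
    simp only [mem_filter, mem_univ, true_and]
    constructor
    · intro hi
      have : e i ∈ C ∩ univ.image e := h ▸ mem_image_of_mem _ hi
      exact (mem_inter.1 this).1
    · intro hi
      have : e i ∈ A.image e := h ▸ mem_inter.2 ⟨hi, mem_image_of_mem _ (mem_univ _)⟩
      exact (he.mem_finset_image).1 this
  · rintro rfl
    ext x
    simp only [mem_inter, mem_image, mem_univ, true_and, mem_filter]
    constructor
    · rintro ⟨h, i, rfl⟩; exact ⟨i, h, rfl⟩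
    · rintro ⟨i, h, rfl⟩; exact ⟨h, i, rfl⟩

theorem dfact : ∀ A ∈ Hc 8 2, ∀ B ∈ Hc 8 2, 2 ≤ (A ∩ Ici 2).card → 2 ≤ (B ∩ Ici 2).card →
    ¬ Disjoint (A ∩ Ici 2) (B ∩ Ici 2) := by
  intro A hA B hB h1 h2 hd
  have : ∀ A ∈ Hc 8 2, 2 ≤ (A ∩ Ici 2).card → (7 : Fin 8) ∈ A ∩ Ici 2 := by decide +kernel
  exact disjoint_left.1 hd (this A hA h1) (this B hB h2)

theorem ind_W {n : ℕ} {H : Finset (Finset (Fin n))} {S : Finset (Fin n)} (h : Ind H S) :
    W H S := by
  obtain ⟨e, he, hr, hA⟩ := h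
  have hS : S = univ.image e := by
    rw [← coe_inj, ← hr]; simp
  subst hS
  refine ⟨(Iic 1).image e, (Ici 2).image e, (disjoint_image he).2 (by decide), ?_, ?_, ?_, ?_,
    ((hA _).1 (by decide)).2, ((hA _).1 (by decide)).2⟩
  · rw [← image_union]; congr 1
  · rw [card_image_of_injective _ he]; rfl
  · rw [card_image_of_injective _ he]; rfl
  · have tr : ∀ C ∈ H, 2 ≤ (C ∩ (Ici 2).image e).card → ∃ A ∈ Hc 8 2,
        C ∩ (Ici 2).image e = (A ∩ Ici 2).image e := by
      intro C hC h2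
      have a1 := (tr_iff he C _).2 rfl
      have a2 : C ∩ (Ici 2).image e = (univ.filter (fun i => e i ∈ C) ∩ Ici 2).image e := by
        rw [image_inter _ _ he, ← a1, inter_assoc, inter_eq_right.2 (image_subset_image (subset_univ _))]
      refine ⟨_, (hA _).2 ⟨?_, C, hC, a1⟩, a2⟩
      rw [a2, card_image_of_injective _ he] at h2
      exact (card_pos.1 (lt_of_lt_of_le (by norm_num) h2)).mono inter_subset_left
    intro C1 c1 C2 c2 a1 a2
    obtain ⟨A1, b1, e1⟩ := tr C1 c1 a1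
    obtain ⟨A2, b2, e2⟩ := tr C2 c2 a2
    rw [e1, card_image_of_injective _ he] at a1
    rw [e2, card_image_of_injective _ he] at a2
    rw [e1, e2, disjoint_image he]
    exact dfact A1 b1 A2 b2 a1 a2

theorem d_down : ∀ A : Finset (Fin 8), (∀ i j, i ≤ j → j ∈ A → i ∈ A) → 2 ∉ A → A.Nonempty →
    A ∈ Hc 8 2 := by decide +kernel

theorem d_up : ∀ A : Finset (Fin 8), (∀ i j, i ≤ j → i ∈ A → j ∈ A) → 1 ∉ A → A.Nonempty →
    A ∈ Hc 8 2 := by decide +kernel

theorem d_card : ∀ A : Finset (Fin 8), (∀ i j, i ≤ j → j ∈ A → i ∈ A) →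
    (A.card = 2 → 1 ∈ A ∧ 2 ∉ A) ∧ (A.card = 6 → 5 ∈ A ∧ 6 ∉ A) := by decide +kernel

theorem pre_single {n : ℕ} {e : Fin 8 → Fin n} (he : Function.Injective e) (v : Fin n)
    (h : (univ.filter (fun i => e i ∈ ({v} : Finset (Fin n)))).Nonempty) :
    univ.filter (fun i => e i ∈ ({v} : Finset (Fin n))) ∈ Hc 8 2 := by
  obtain ⟨i, hi⟩ := h
  simp only [mem_singleton, mem_filter, mem_univ, true_and] at hi
  subst hi
  exact mem_Hc.2 (Or.inr (Or.inl ⟨i, by ext j; simp [he.eq_iff]⟩))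

theorem ind_mono {n l : ℕ} {e : Fin 8 → Fin n} (he : StrictMono e) (h1 : (e 1).val < l)
    (h2 : l ≤ (e 2).val) : Ind (Hc n l) (univ.image e) := by
  refine ⟨e, he.injective, by simp, fun A => ?_⟩
  simp only [tr_iff he.injective]
  constructor
  · intro hA
    refine ⟨nonempty_iff_ne_empty.2 (fun h => (valid_Hc (n := 8) (l := 2) (by norm_num)
      (by norm_num)).2.2.1 (h ▸ hA)), ?_⟩
    rcases mem_Hc.1 hA with rfl | ⟨v, rfl⟩ | ⟨v, hv, rfl⟩ | ⟨v, hv, rfl⟩
    · exact ⟨univ, mem_Hc.2 (Or.inl rfl), by simp⟩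
    · exact ⟨{e v}, mem_Hc.2 (Or.inr (Or.inl ⟨_, rfl⟩)), by ext j; simp [he.injective.eq_iff]⟩
    · have : e v ≤ e 1 := he.monotone (by rw [Fin.le_def]; simp; omega)
      exact ⟨Iic (e v), mem_Hc.2 (Or.inr (Or.inr (Or.inl ⟨_, lt_of_le_of_lt this h1, rfl⟩))),
        by ext j; simp [he.le_iff_le]⟩
    · have : e 2 ≤ e v := he.monotone (by rw [Fin.le_def]; simp; omega)
      exact ⟨Ici (e v), mem_Hc.2 (Or.inr (Or.inr (Or.inr ⟨_, le_trans h2 this, rfl⟩))),
        by ext j; simp [he.le_iff_le]⟩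
  · rintro ⟨hne, C, hC, rfl⟩
    rcases mem_Hc.1 hC with rfl | ⟨v, rfl⟩ | ⟨v, hv, rfl⟩ | ⟨v, hv, rfl⟩
    · exact mem_Hc.2 (Or.inl (by simp))
    · exact pre_single he.injective v hne
    · refine d_down _ (fun i j hij => ?_) ?_ hne
      · simp only [mem_filter, mem_univ, true_and, mem_Iic]
        exact fun h => (he.monotone hij).trans h
      · simp only [mem_filter, mem_univ, true_and, mem_Iic, Fin.le_def]; omega
    · refine d_up _ (fun i j hij => ?_) ?_ hne
      · simp only [mem_filter, mem_univ, true_and, mem_Ici]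
        exact fun h => h.trans (he.monotone hij)
      · simp only [mem_filter, mem_univ, true_and, mem_Ici, Fin.le_def]; omega

theorem ind_anti {n l : ℕ} {e : Fin 8 → Fin n} (he : StrictAnti e) (h1 : (e 2).val < l)
    (h2 : l ≤ (e 1).val) : Ind (Hc n l) (univ.image e) := by
  refine ⟨e, he.injective, by simp, fun A => ?_⟩
  simp only [tr_iff he.injective]
  constructor
  · intro hA
    refine ⟨nonempty_iff_ne_empty.2 (fun h => (valid_Hc (n := 8) (l := 2) (by norm_num)
      (by norm_num)).2.2.1 (h ▸ hA)), ?_⟩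
    rcases mem_Hc.1 hA with rfl | ⟨v, rfl⟩ | ⟨v, hv, rfl⟩ | ⟨v, hv, rfl⟩
    · exact ⟨univ, mem_Hc.2 (Or.inl rfl), by simp⟩
    · exact ⟨{e v}, mem_Hc.2 (Or.inr (Or.inl ⟨_, rfl⟩)), by ext j; simp [he.injective.eq_iff]⟩
    · have : e 1 ≤ e v := he.antitone (by rw [Fin.le_def]; simp; omega)
      exact ⟨Ici (e v), mem_Hc.2 (Or.inr (Or.inr (Or.inr ⟨_, le_trans h2 this, rfl⟩))),
        by ext j; simp [he.le_iff_ge]⟩
    · have : e v ≤ e 2 := he.antitone (by rw [Fin.le_def]; simp; omega)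
      exact ⟨Iic (e v), mem_Hc.2 (Or.inr (Or.inr (Or.inl ⟨_, lt_of_le_of_lt this h1, rfl⟩))),
        by ext j; simp [he.le_iff_ge]⟩
  · rintro ⟨hne, C, hC, rfl⟩
    rcases mem_Hc.1 hC with rfl | ⟨v, rfl⟩ | ⟨v, hv, rfl⟩ | ⟨v, hv, rfl⟩
    · exact mem_Hc.2 (Or.inl (by simp))
    · exact pre_single he.injective v hne
    · refine d_up _ (fun i j hij => ?_) ?_ hne
      · simp only [mem_filter, mem_univ, true_and, mem_Iic]
        exact fun h => (he.antitone hij).trans h
      · simp only [mem_filter, mem_univ, true_and, mem_Iic, Fin.le_def]; omega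
    · refine d_down _ (fun i j hij => ?_) ?_ hne
      · simp only [mem_filter, mem_univ, true_and, mem_Ici]
        exact fun h => h.trans (he.antitone hij)
      · simp only [mem_filter, mem_univ, true_and, mem_Ici, Fin.le_def]; omega

theorem ind_of {n l : ℕ} (S : Finset (Fin n)) (h8 : S.card = 8)
    (h : (S.filter (fun v => v.val < l)).card = 2 ∨ (S.filter (fun v => v.val < l)).card = 6) :
    Ind (Hc n l) S := by
  let e := S.orderEmbOfFin h8
  have hS : univ.image e = S := by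
    rw [← coe_inj]; simp [e]
  have hc : (univ.filter (fun i => (e i).val < l)).card = (S.filter (fun v => v.val < l)).card := by
    rw [← hS, filter_image, card_image_of_injective _ e.injective]
  have hd := d_card (univ.filter (fun i => (e i).val < l)) (fun i j hij => by
    simp only [mem_filter, mem_univ, true_and]
    exact fun h => lt_of_le_of_lt (e.monotone hij) h)
  simp only [mem_filter, mem_univ, true_and, not_lt, hc] at hd
  rcases h with h | h
  · rw [← hS]; exact ind_mono e.strictMono (hd.1 h).1 (hd.1 h).2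
  · have : univ.image (fun i => e (Fin.rev i)) = S := by
      rw [← hS]; ext x; simp only [mem_image, mem_univ, true_and]
      exact ⟨fun ⟨i, h⟩ => ⟨_, h⟩, fun ⟨i, h⟩ => ⟨i.rev, by simpa using h⟩⟩
    rw [← this]
    exact ind_anti (e.strictMono.comp_strictAnti Fin.rev_strictAnti) (hd.2 h).1 (hd.2 h).2

theorem lower {n l : ℕ} (h1 : l < n) :
    l.choose 2 * (n - l).choose 6 + l.choose 6 * (n - l).choose 2 ≤
      Set.ncard {S : Finset (Fin n) | Ind (Hc n l) S} := by
  classical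
  let L : Finset (Fin n) := Iio ⟨l, h1⟩
  let R : Finset (Fin n) := Ici ⟨l, h1⟩
  have cL : L.card = l := by simp [L]
  have cR : R.card = n - l := by simp [R]
  have mL : ∀ x ∈ L, x.val < l := fun x hx => by simpa [L, Fin.lt_def] using hx
  have mR : ∀ x ∈ R, ¬ x.val < l := fun x hx => by simpa [R, Fin.le_def] using hx
  have f1 : ∀ P ⊆ L, ∀ Q ⊆ R, (P ∪ Q).filter (fun v => v.val < l) = P := by
    intro P hP Q hQ
    rw [filter_union, filter_true_of_mem (fun x hx => mL x (hP hx)),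
      filter_false_of_mem (fun x hx => mR x (hQ hx)), union_empty]
  have f2 : ∀ P ⊆ L, ∀ Q ⊆ R, (P ∪ Q).filter (fun v => ¬ v.val < l) = Q := by
    intro P hP Q hQ
    rw [filter_union, filter_true_of_mem (fun x hx => mR x (hQ hx)),
      filter_false_of_mem (fun x hx => not_not.2 (mL x (hP hx))), empty_union]
  have hd : ∀ P ⊆ L, ∀ Q ⊆ R, Disjoint P Q := fun P hP Q hQ =>
    disjoint_left.2 (fun x a b => mR x (hQ b) (mL x (hP a)))
  let T := L.powersetCard 2 ×ˢ R.powersetCard 6 ∪ L.powersetCard 6 ×ˢ R.powersetCard 2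
  have cT : T.card = l.choose 2 * (n - l).choose 6 + l.choose 6 * (n - l).choose 2 := by
    rw [card_union_of_disjoint]
    · simp only [card_product, card_powersetCard, cL, cR]
    · rw [disjoint_left]
      intro p a b
      simp only [mem_product, mem_powersetCard] at a b
      omega
  have mT : ∀ p ∈ T, p.1 ⊆ L ∧ p.2 ⊆ R ∧ p.1.card + p.2.card = 8 ∧
      (p.1.card = 2 ∨ p.1.card = 6) := by
    intro p hp
    simp only [T, mem_union, mem_product, mem_powersetCard] at hp
    rcases hp with hp | hp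
    · exact ⟨hp.1.1, hp.2.1, by omega, by omega⟩
    · exact ⟨hp.1.1, hp.2.1, by omega, by omega⟩
  rw [← cT, ← Set.ncard_coe_finset]
  refine Set.ncard_le_ncard_of_injOn (fun p => p.1 ∪ p.2) ?_ ?_
  · intro p hp
    obtain ⟨a, b, c, d⟩ := mT p hp
    exact ind_of _ (by rw [card_union_of_disjoint (hd _ a _ b), c]) (by rw [f1 _ a _ b]; exact d)
  · intro p hp q hq e
    obtain ⟨a, b, -⟩ := mT p hp
    obtain ⟨a', b', -⟩ := mT q hq
    simp only at e
    exact Prod.ext (by rw [← f1 _ a _ b, e, f1 _ a' _ b']) (by rw [← f2 _ a _ b, e, f2 _ a' _ b'])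

theorem upper' {n : ℕ} {H : Finset (Finset (Fin n))} (h : Valid H) :
    (Set.ncard {S : Finset (Fin n) | Ind H S} : ℝ) ≤ dd * (n : ℝ) ^ 8 / 40320 := by
  classical
  have := upper h.2.2.2.1 h.2.2.2.2 univ h.1
  rw [card_univ, Fintype.card_fin] at this
  refine le_trans ?_ this
  unfold NN
  have : {S : Finset (Fin n) | Ind H S} ⊆ ↑((univ : Finset (Fin n)).powerset.filter (W H)) :=
    fun S hS => by simpa using ind_W hS
  exact_mod_cast (Set.ncard_le_ncard this).trans_eq (Set.ncard_coe_finset _)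

theorem tend_choose (a : ℕ → ℕ) (x : ℝ) (h : Tendsto (fun n : ℕ => (a n : ℝ) / n) atTop (𝓝 x))
    (j : ℕ) : Tendsto (fun n : ℕ => ((a n).choose j : ℝ) / (n : ℝ) ^ j) atTop
      (𝓝 (x ^ j / j.factorial)) := by
  induction j with
  | zero => simp
  | succ j ih =>
    have h2 := (ih.mul (h.sub (tendsto_const_div_atTop_nhds_zero_nat (j : ℝ)))).div_const
      ((j : ℝ) + 1)
    have e : x ^ (j + 1) / ((j + 1).factorial : ℝ) = x ^ j / j.factorial * (x - 0) / (j + 1) := by
      rw [Nat.factorial_succ]; push_cast; field_simp; ring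
    rw [e]
    refine h2.congr' ?_
    filter_upwards [eventually_gt_atTop 0] with n hn
    have hn' : (n : ℝ) ≠ 0 := by positivity
    have : ((a n).choose (j + 1) : ℝ) * (j + 1) = (a n).choose j * (a n - j) := by
      rcases le_or_gt j (a n) with h | h
      · exact_mod_cast Nat.choose_succ_right_eq (a n) j
      · simp [Nat.choose_eq_zero_of_lt h, Nat.choose_eq_zero_of_lt (Nat.lt_succ_of_lt h)]
    have hj : (j : ℝ) + 1 ≠ 0 := by positivity
    have e2 : ((a n).choose (j + 1) : ℝ) = (a n).choose j * (a n - j) / (j + 1) := by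
      rw [← this]; field_simp
    rw [e2, pow_succ]
    field_simp

noncomputable def x0 : ℝ := (1 - √(√5 - 2)) / 2

theorem x0_b : 0 < x0 ∧ x0 < 1 / 2 := by
  have h := s5b
  have h1 : √(√5 - 2) < 1 := by
    rw [Real.sqrt_lt' one_pos]; linarith
  have h2 : 0 < √(√5 - 2) := Real.sqrt_pos.2 (by linarith)
  unfold x0; constructor <;> linarith

theorem x0_p : x0 * (1 - x0) = (3 - √5) / 4 := by
  have h := s5b
  have h1 : √(√5 - 2) ^ 2 = √5 - 2 := Real.sq_sqrt (by linarith)
  unfold x0; linear_combination (-1 / 4) * h1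

theorem x0_val : (x0 ^ 2 / (2 : ℕ).factorial * ((1 - x0) ^ 6 / (6 : ℕ).factorial) +
    x0 ^ 6 / (6 : ℕ).factorial * ((1 - x0) ^ 2 / (2 : ℕ).factorial)) / (1 ^ 8 / (8 : ℕ).factorial)
    = dd := by
  have h := x0_p
  have h5 := s5
  have e : (x0 ^ 2 / (2 : ℕ).factorial * ((1 - x0) ^ 6 / (6 : ℕ).factorial) +
    x0 ^ 6 / (6 : ℕ).factorial * ((1 - x0) ^ 2 / (2 : ℕ).factorial)) / (1 ^ 8 / (8 : ℕ).factorial)
    = 28 * (x0 * (1 - x0)) ^ 2 * (1 - 4 * (x0 * (1 - x0)) + 2 * (x0 * (1 - x0)) ^ 2) := by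
    norm_num [Nat.factorial]; ring
  rw [e, h]; unfold dd
  have h3 : (√5 : ℝ) ^ 3 = 5 * √5 := by rw [pow_succ, h5]
  have h4 : (√5 : ℝ) ^ 4 = 25 := by rw [show (√5 : ℝ) ^ 4 = (√5 ^ 2) ^ 2 by ring, h5]; norm_num
  ring_nf
  rw [h5, h3, h4]
  ring

theorem irr_dd : Irrational dd := by
  have h : Irrational (√5) := by
    have := Nat.Prime.irrational_sqrt (p := 5) (by norm_num)
    simpa using this
  have : dd = ((35 / 4 : ℚ) : ℝ) * √5 - ((77 / 4 : ℚ) : ℝ) := by unfold dd; push_cast; ring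
  rw [this]
  exact (h.ratCast_mul (by norm_num)).sub_ratCast _

theorem final : Tendsto (fun n : ℕ => sSup {x : ℝ | ∃ H : Finset (Finset (Fin n)), Valid H ∧
    x = (Set.ncard {S : Finset (Fin n) | Ind H S} : ℝ) / ((n.choose 8 : ℕ) : ℝ)}) atTop (𝓝 dd) := by
  have hn1 : Tendsto (fun n : ℕ => ((n : ℕ) : ℝ) / n) atTop (𝓝 1) := by
    refine tendsto_const_nhds.congr' ?_
    filter_upwards [eventually_gt_atTop 0] with n hn
    have : (n : ℝ) ≠ 0 := by positivity
    field_simp
  have c8 := tend_choose (fun n => n) 1 hn1 8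
  let l : ℕ → ℕ := fun n => ⌊x0 * n⌋₊
  have hl : Tendsto (fun n : ℕ => (l n : ℝ) / n) atTop (𝓝 x0) :=
    (tendsto_nat_floor_mul_div_atTop x0_b.1.le).comp tendsto_natCast_atTop_atTop
  have hlt : ∀ n : ℕ, 0 < n → l n < n := by
    intro n hn
    have : (0 : ℝ) < n := by exact_mod_cast hn
    rw [Nat.floor_lt (mul_nonneg x0_b.1.le this.le)]
    nlinarith [x0_b.2]
  have hr : Tendsto (fun n : ℕ => ((n - l n : ℕ) : ℝ) / n) atTop (𝓝 (1 - x0)) := by
    refine (hn1.sub hl).congr' ?_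
    filter_upwards [eventually_gt_atTop 0] with n hn
    rw [Nat.cast_sub (hlt n hn).le, sub_div]
  have hpos : ∀ᶠ n : ℕ in atTop, 0 < l n := by
    filter_upwards [hl.eventually (lt_mem_nhds x0_b.1)] with n hn
    rcases Nat.eq_zero_or_pos (l n) with h | h
    · simp [h] at hn
    · exact h
  have ne8 : (1 : ℝ) ^ 8 / (8 : ℕ).factorial ≠ 0 := by positivity
  have low := (((tend_choose l _ hl 2).mul (tend_choose _ _ hr 6)).add
    ((tend_choose l _ hl 6).mul (tend_choose _ _ hr 2))).div c8 ne8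
  rw [x0_val] at low
  have up := (tendsto_const_nhds (x := dd / 40320)).div c8 ne8
  rw [show dd / 40320 / (1 ^ 8 / (8 : ℕ).factorial) = dd by norm_num [Nat.factorial]; ring] at up
  have bd : ∀ n : ℕ, 8 ≤ n → ∀ x ∈ {x : ℝ | ∃ H : Finset (Finset (Fin n)), Valid H ∧
      x = (Set.ncard {S : Finset (Fin n) | Ind H S} : ℝ) / ((n.choose 8 : ℕ) : ℝ)},
      x ≤ dd / 40320 / ((n.choose 8 : ℝ) / (n : ℝ) ^ 8) := by
    rintro n hn x ⟨H, hH, rfl⟩
    have c : (0 : ℝ) < n.choose 8 := by exact_mod_cast Nat.choose_pos hn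
    have : (0 : ℝ) < n := by exact_mod_cast (by omega : 0 < n)
    rw [show dd / 40320 / ((n.choose 8 : ℝ) / (n : ℝ) ^ 8) = dd * n ^ 8 / 40320 / n.choose 8 by
      field_simp]
    exact div_le_div_of_nonneg_right (upper' hH) c.le
  refine tendsto_of_tendsto_of_tendsto_of_le_of_le' low up ?_ ?_
  · filter_upwards [hpos, eventually_ge_atTop 8] with n h0 h8
    have h1 := hlt n (by omega)
    refine le_trans ?_ (le_csSup ⟨_, bd n h8⟩ ⟨Hc n (l n), valid_Hc h0 h1, rfl⟩)
    have c : (0 : ℝ) < n.choose 8 := by exact_mod_cast Nat.choose_pos h8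
    have : (0 : ℝ) < n := by exact_mod_cast (by omega : 0 < n)
    have lo : ((l n).choose 2 : ℝ) * (n - l n).choose 6 + (l n).choose 6 * (n - l n).choose 2 ≤
      Set.ncard {S : Finset (Fin n) | Ind (Hc n (l n)) S} := by exact_mod_cast lower h1
    refine le_trans (le_of_eq ?_) (div_le_div_of_nonneg_right lo c.le)
    simp only [Pi.div_apply]
    field_simp
  · filter_upwards [hpos, eventually_ge_atTop 8] with n h0 h8
    exact csSup_le ⟨_, Hc n (l n), valid_Hc h0 (hlt n (by omega)), rfl⟩ (bd n h8)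

end Pool.Agent.H.IND
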